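import Pool.Agent.Helper31.LW.Goals

/-!
# Project LW (MP_6fb600_gt), packet SPX
-/

open MeasureTheory Set
open Pool.Agent.Helper47.AQ

namespace Pool.Agent.Helper53.LW

open Pool.Agent.Helper31.LW

/-- The vertices: `-w` and the unit vectors. -/
noncomputable def vx {n : ℕ} (w : Fin n → ℝ) : Option (Fin n) → Fin n → ℝ
  | none => -w
  | some i => Pi.single i 1

theorem sum_vx {n : ℕ} (w : Fin n → ℝ) (c : Option (Fin n) → ℝ) (i : Fin n) :
    (∑ o, c o • vx w o) i = c (some i) - c none * w i := by
  rw [Fintype.sum_option]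
  simp only [Pi.add_apply, Pi.smul_apply, Finset.sum_apply, vx, smul_eq_mul, Pi.neg_apply]
  rw [Finset.sum_eq_single i]
  · simp; ring
  · intro b _ hb
    simp [Pi.single_eq_of_ne (Ne.symm hb)]
  · intro h; exact absurd (Finset.mem_univ i) h

theorem indep_vx {n : ℕ} (w : Fin n → ℝ) (hw : ∀ i, 0 ≤ w i) : AffineIndependent ℝ (vx w) := by
  classical
  rw [affineIndependent_iff]
  intro s c hs1 hs2
  have key : ∀ c' : Option (Fin n) → ℝ, ∑ o, c' o = 0 → ∑ o, c' o • vx w o = 0 →
      ∀ o, c' o = 0 := by
    intro c' h1 h2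
    have h3 : ∀ i, c' (some i) = c' none * w i := by
      intro i
      have := sum_vx w c' i
      rw [h2] at this
      simp only [Pi.zero_apply] at this
      linarith
    have hW : 0 ≤ ∑ i, w i := Finset.sum_nonneg fun i _ => hw i
    rw [Fintype.sum_option] at h1
    simp_rw [h3] at h1
    rw [← Finset.mul_sum] at h1
    have h4 : c' none * (1 + ∑ i, w i) = 0 := by linarith
    have h5 : c' none = 0 := by
      rcases mul_eq_zero.1 h4 with h | h
      · exact h
      · linarith
    intro o
    cases o with
    | none => exact h5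
    | some i => rw [h3, h5, zero_mul]
  have e1 : ∑ o, (if o ∈ s then c o else 0) = 0 := by
    refine Eq.trans ?_ hs1
    rw [← Finset.sum_filter, Finset.filter_mem_eq_inter, Finset.univ_inter]
  have e2 : ∑ o, (if o ∈ s then c o else 0) • vx w o = 0 := by
    refine Eq.trans ?_ hs2
    simp only [ite_smul, zero_smul]
    rw [← Finset.sum_filter, Finset.filter_mem_eq_inter, Finset.univ_inter]
  intro o ho
  have := key (fun o => if o ∈ s then c o else 0) e1 e2 o
  simpa [ho] using this

theorem zero_mem {n : ℕ} (w : Fin n → ℝ) (hw : ∀ i, 0 ≤ w i) :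
    (0 : Fin n → ℝ) ∈ convexHull ℝ (range (vx w)) := by
  have hW : 0 ≤ ∑ i, w i := Finset.sum_nonneg fun i _ => hw i
  have hW' : (1 + ∑ i, w i) ≠ 0 := by linarith
  let c : Option (Fin n) → ℝ := fun o => o.elim (1 / (1 + ∑ i, w i))
    (fun i => w i / (1 + ∑ i, w i))
  have h1 : ∑ o, c o • vx w o = 0 := by
    funext i
    rw [sum_vx]
    simp only [c, Option.elim, Pi.zero_apply]
    field_simp
    ring
  rw [← h1]
  refine (convex_convexHull ℝ (range (vx w))).sum_mem ?_ ?_ ?_
  · intro o _
    cases o with
    | none => simp only [c, Option.elim]; positivity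
    | some i =>
      simp only [c, Option.elim]
      exact div_nonneg (hw i) (by linarith)
  · rw [Fintype.sum_option]
    simp only [c, Option.elim]
    rw [← Finset.sum_div, ← add_div, div_self hW']
  · intro o _
    exact subset_convexHull ℝ _ ⟨o, rfl⟩

/-- SPX: the normal form is a simplex if the weights are in one block. -/
theorem gSPX : SPX := by
  intro n k hn g w hw hj
  obtain ⟨j, hj⟩ := hj
  have hwj : wv g w j = w := by
    funext i
    by_cases h : g i = j
    · simp [wv, h]
    · simp [wv, h, hj i h]
  have hwj' : ∀ j', j' ≠ j → wv g w j' = 0 := by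
    intro j' hne
    funext i
    by_cases h : g i = j'
    · simp only [wv, h, if_true, Pi.zero_apply]
      exact hj i (by rw [h]; exact hne)
    · simp [wv, h]
  have hNF : NF g w = convexHull ℝ (range (vx w)) := by
    apply Subset.antisymm
    · apply convexHull_min _ (convex_convexHull ℝ _)
      rintro x (⟨i, rfl⟩ | ⟨j', rfl⟩)
      · exact subset_convexHull ℝ _ ⟨some i, rfl⟩
      · by_cases h : j' = j
        · subst h
          exact subset_convexHull ℝ _ ⟨none, by simp [vx, hwj]⟩
        · simp only [hwj' j' h, neg_zero]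
          exact zero_mem w hw
    · apply convexHull_mono
      rintro x ⟨o, rfl⟩
      cases o with
      | none => exact Or.inr ⟨j, by simp [vx, hwj]⟩
      | some i => exact Or.inl ⟨i, rfl⟩
  rw [hNF]
  refine ⟨?_, Option (Fin n), inferInstance, vx w, indep_vx w hw, rfl⟩
  rw [interior_convexHull_nonempty_iff_affineSpan_eq_top]
  rw [(indep_vx w hw).affineSpan_eq_top_iff_card_eq_finrank_add_one]
  simp

end Pool.Agent.Helper53.LW
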